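import Mathlib
import Pool.Agent.H.MP_79a1cb_co.A
set_option autoImplicit false

namespace Pool.Agent.Results.MP_79a1cb_co.Yes
open Finset Filter Pool.Agent.H.MP_79a1cb_co

/-- The subsequence of `u` on the positions `I` has a subsequence isomorphic to `v`. -/
def Cont {m n : ℕ} (u : Fin m → ℕ) (I : Finset (Fin m)) (v : Fin n → ℕ) : Prop :=
  ∃ g : Fin n → Fin m, StrictMono g ∧ (∀ i, g i ∈ I) ∧ ∀ i j, u (g i) = u (g j) ↔ v i = v j

noncomputable def LSS {m n : ℕ} (u : Fin m → ℕ) (v : Fin n → ℕ) : ℕ :=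
  sSup {k | ∃ I : Finset (Fin m), ¬ Cont u I v ∧ I.card = k}

noncomputable def ss {n : ℕ} (m : ℕ) (v : Fin n → ℕ) : ℕ :=
  sInf {k | ∃ u : Fin m → ℕ, LSS u v = k}

/-- the alternation `abab...` of length `n` -/
def alt (n : ℕ) : Fin n → ℕ := fun i => i.1 % 2

theorem low {m n : ℕ} (hn : 5 ≤ n) (u : Fin m → ℕ) (I : Finset ℕ) (h : I ⊆ range m)
    (hI : Free (fun p => if h : p < m then u ⟨p, h⟩ else 0) I) : I.card ≤ LSS u (alt n) := by
  refine le_csSup ⟨(univ : Finset (Fin m)).card, by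
    rintro _ ⟨B, -, rfl⟩
    exact card_le_univ B⟩ ⟨I.attachFin fun p hp => mem_range.1 (h hp), ?_, card_attachFin _ _⟩
  rintro ⟨g, g1, g2, g3⟩
  have k : ∀ i, (g i).1 ∈ I := fun i => (mem_attachFin _).1 (g2 i)
  have := hI _ (k ⟨0, by omega⟩) _ (k ⟨1, by omega⟩) _ (k ⟨2, by omega⟩) _ (k ⟨3, by omega⟩) _
    (k ⟨4, by omega⟩) (g1 (by simp [Fin.lt_def])) (g1 (by simp [Fin.lt_def]))
    (g1 (by simp [Fin.lt_def])) (g1 (by simp [Fin.lt_def]))
  simp [g3, alt] at this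

theorem result (n : ℕ) (hn : 5 ≤ n) :
    Tendsto (fun m : ℕ => (ss m (alt n) : ℝ) / √m) atTop atTop := by
  refine tendsto_atTop.2 fun b => ?_
  obtain ⟨k, hk⟩ := exists_nat_ge b
  obtain ⟨s, G, s0, H⟩ := core (2 * k)
  filter_upwards [eventually_ge_atTop ((G + 1) * s * ((G + 1) * s))] with m hm
  obtain ⟨u, hu⟩ : ss m (alt n) ∈ _ := Nat.sInf_mem
    (⟨_, fun _ => 0, rfl⟩ : Set.Nonempty {k | ∃ u : Fin m → ℕ, LSS u (alt n) = k})
  have g1 : G + 1 ≤ m.sqrt / s := (Nat.le_div_iff_mul_le s0).2 (Nat.le_sqrt.2 hm)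
  have g2 := Nat.div_mul_le_self m.sqrt s
  have g3 := Nat.lt_div_mul_add (a := m.sqrt) s0
  generalize m.sqrt / s = g at g1 g2 g3
  obtain ⟨I, i1, i2, i3⟩ := H g (by omega) fun p => if h : p < m then u ⟨p, h⟩ else 0
  have i4 := low hn u I (i1.trans (range_subset_range.2
    ((Nat.mul_le_mul g2 g2).trans (Nat.sqrt_le m)))) i2
  have i5 : k * (m.sqrt + 1) ≤ ss m (alt n) := by
    have : 1 * s ≤ g * s := Nat.mul_le_mul_right s (by omega)
    have := Nat.mul_le_mul_left k (show m.sqrt + 1 ≤ 2 * (g * s) by omega)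
    rw [← hu]
    linarith
  have m0 : 0 < m := lt_of_lt_of_le (by positivity) hm
  rw [le_div_iff₀ (by positivity)]
  have i6 : √(m : ℝ) ≤ m.sqrt + 1 := Real.real_sqrt_le_nat_sqrt_succ
  have i7 : (k : ℝ) * (m.sqrt + 1) ≤ ss m (alt n) := by exact_mod_cast i5
  exact (mul_le_mul hk i6 (by positivity) (by positivity)).trans i7

end Pool.Agent.Results.MP_79a1cb_co.Yes
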